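import Pool.Agent.Lib.MP_9a50b7_lc.NoFP.Final

/-! The reduction with a fixed size and a fixed number of matrices. -/

set_option autoImplicit false
set_option linter.unusedSectionVars false

namespace Pool.Agent.MP9a50b7

open Matrix Relation

/-- The reduction with its parameters: the size and the number of the matrices are fixed. -/
theorem reduce_fixed {ι : Type} [Finite ι] {d : ℕ} (A : ι → Matrix (Fin d) (Fin d) ℤ)
    {ρ0 C c : ℝ} {i0 j0 : Fin d}
    (hA : CoreFam (fun a => (A a).map (Int.cast : ℤ → ℝ)) ρ0 C c i0 j0) :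
    ∃ (N m : ℕ) (Z : ℕ → Fin m → Matrix (Fin N) (Fin N) ℤ), 0 < N ∧ 0 < m ∧
      (∀ k i j, Primrec fun x => Z x k i j) ∧
      ¬ ComputablePred fun x => FPg (fun k => (Z x k).map (Int.cast : ℤ → ℝ)) := by
  classical
  have : Fintype ι := Fintype.ofFinite ι
  obtain ⟨Kk, q, instr, gf, v0, v1, hT0, hv0, hv1, hundec⟩ := exists_undecidable
  -- constants
  set R : ℕ := 1 + (∑ b, ∑ i, ∑ j, ((instr b).T i j).natAbs) +
    (∑ b, ∑ j, ((instr b).g1 j).natAbs) + (∑ b, ∑ j, ((instr b).g2 j).natAbs) +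
    (∑ j, (gf j).natAbs) with hR
  set P : ℕ := 1 + (∑ i, (v0 i).natAbs) + (∑ i, (v1 i).natAbs) with hP
  have hR1 : 1 ≤ R := by omega
  have hP1 : 1 ≤ P := by omega
  obtain ⟨K, hK⟩ := exists_nat_gt (2 * ρ0 / c)
  have hK0 : (0:ℝ) < K := lt_trans (div_pos (by linarith [hA.hρ0]) hA.hc) hK
  have hK' : (0:ℤ) < (K:ℤ) := by exact_mod_cast hK0
  have hKc : 2 * ρ0 < K * c := by rwa [div_lt_iff₀ hA.hc] at hK
  obtain ⟨E0, hE0⟩ := exists_nat_gt (K * C / ρ0)
  set E : ℕ := E0 + 1 with hE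
  have hE1 : (1:ℝ) ≤ E := by rw [hE]; push_cast; linarith [Nat.cast_nonneg (α := ℝ) E0]
  have hEpos : (0:ℝ) < E := by linarith
  have hEs : K * C * (1 / (E : ℝ)) < ρ0 := by
    rw [mul_one_div, div_lt_iff₀ hEpos]
    rw [div_lt_iff₀ hA.hρ0] at hE0
    have e1 : (E0 : ℝ) * ρ0 ≤ ρ0 * E := by
      rw [hE]; push_cast; nlinarith [hA.hρ0]
    linarith
  set Th : ℕ := 2 * R ^ 2 with hTh
  set H : ℕ := 4 * R ^ 2 * P ^ 2 + 1 with hH
  set G : ℕ → ℕ := fun x => H * (1 + x) ^ 2 with hG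
  have hTh0 : 0 < Th := by positivity
  have hH0 : 0 < H := by positivity
  have hG0 : ∀ x, 0 < G x := fun x => by positivity
  set ξ : ℕ → Idx Kk → ℤ := fun x => v0 + (x : ℤ) • v1 with hξ
  have hR1' : (1:ℝ) ≤ R := by exact_mod_cast hR1
  have hP1' : (1:ℝ) ≤ P := by exact_mod_cast hP1
  -- bounds on rows
  have hTle : ∀ b, ∑ i, ∑ j, ((instr b).T i j).natAbs ≤ R := by
    intro b
    have := Finset.single_le_sum (f := fun b => ∑ i, ∑ j, ((instr b).T i j).natAbs)
      (fun _ _ => Nat.zero_le _) (Finset.mem_univ b)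
    omega
  have hrow : ∀ b i, ∑ j, ((instr b).T i j).natAbs ≤ R := by
    intro b i
    have := Finset.single_le_sum (f := fun i => ∑ j, ((instr b).T i j).natAbs)
      (fun _ _ => Nat.zero_le _) (Finset.mem_univ i)
    exact this.trans (hTle b)
  have hcol : ∀ b j, ∑ i, ((instr b).T i j).natAbs ≤ R := by
    intro b j
    have := Finset.single_le_sum (f := fun j => ∑ i, ((instr b).T i j).natAbs)
      (fun _ _ => Nat.zero_le _) (Finset.mem_univ j)
    refine this.trans ?_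
    rw [Finset.sum_comm]
    exact hTle b
  have hg1 : ∀ b, ∑ j, ((instr b).g1 j).natAbs ≤ R := by
    intro b
    have := Finset.single_le_sum (f := fun b => ∑ j, ((instr b).g1 j).natAbs)
      (fun _ _ => Nat.zero_le _) (Finset.mem_univ b)
    omega
  have hg2 : ∀ b, ∑ j, ((instr b).g2 j).natAbs ≤ R := by
    intro b
    have := Finset.single_le_sum (f := fun b => ∑ j, ((instr b).g2 j).natAbs)
      (fun _ _ => Nat.zero_le _) (Finset.mem_univ b)
    omega
  have hgf : ∑ j, (gf j).natAbs ≤ R := by omega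
  have hξb : ∀ x i, |((ξ x i : ℤ) : ℝ)| ≤ (P : ℝ) * (1 + x) := by
    intro x i
    have e1 : (v0 i).natAbs ≤ P := by
      have := Finset.single_le_sum (f := fun i => (v0 i).natAbs)
        (fun _ _ => Nat.zero_le _) (Finset.mem_univ i)
      omega
    have e2 : (v1 i).natAbs ≤ P := by
      have := Finset.single_le_sum (f := fun i => (v1 i).natAbs)
        (fun _ _ => Nat.zero_le _) (Finset.mem_univ i)
      omega
    have e3 : |((v0 i : ℤ) : ℝ)| ≤ P := by
      rw [← Int.cast_abs, ← Nat.cast_natAbs]; exact_mod_cast e1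
    have e4 : |((v1 i : ℤ) : ℝ)| ≤ P := by
      rw [← Int.cast_abs, ← Nat.cast_natAbs]; exact_mod_cast e2
    have e5 : ((ξ x i : ℤ) : ℝ) = (v0 i : ℝ) + x * (v1 i : ℝ) := by
      simp [hξ]
    rw [e5]
    refine (abs_add_le _ _).trans ?_
    rw [abs_mul, abs_of_nonneg (Nat.cast_nonneg (α := ℝ) x)]
    have e6 := mul_le_mul_of_nonneg_left e4 (Nat.cast_nonneg (α := ℝ) x)
    linarith
  have good : ∀ x, Good instr gf (ξ x) none (1 / ((Th : ℤ) : ℝ)) (1 / ((G x : ℤ) : ℝ))
      (1 / ((E : ℤ) : ℝ)) (R : ℝ) (P * (1 + x)) := by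
    intro x
    have hx0 : (0:ℝ) ≤ x := Nat.cast_nonneg x
    have hTh0' : (0:ℝ) < ((Th : ℤ) : ℝ) := by exact_mod_cast hTh0
    have hG0' : (0:ℝ) < ((G x : ℤ) : ℝ) := by exact_mod_cast hG0 x
    have hE0' : (0:ℝ) < ((E : ℤ) : ℝ) := by exact_mod_cast hEpos
    refine ⟨hR1', ?_, fun b i => natAbs_sum_le _ (hrow b i), fun b j => natAbs_sum_le _ (hcol b j),
      fun b => natAbs_sum_le _ (hg1 b), fun b => natAbs_sum_le _ (hg2 b), natAbs_sum_le _ hgf,
      hξb x, ?_, hT0, by positivity, ?_, by positivity, ?_, by positivity, ?_⟩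
    · nlinarith
    · simp [hξ, hv0, hv1]
    · rw [one_div, inv_mul_le_iff₀ hTh0', hTh]
      push_cast
      linarith
    · rw [one_div, inv_mul_le_iff₀ hG0', hG, hH]
      push_cast
      nlinarith
    · rw [div_le_one hE0']
      exact_mod_cast hE1
  -- the combined real family
  set M : ℕ → Option (ι × Option (Option (Fin q))) →
      Matrix (Fin d × Sig (Idx Kk)) (Fin d × Sig (Idx Kk)) ℝ := fun x =>
    cmb (fun a => (A a).map (Int.cast : ℤ → ℝ))
      (Bmat instr gf (ξ x) none (1 / ((Th : ℤ) : ℝ)) (1 / ((G x : ℤ) : ℝ)) (1 / ((E : ℤ) : ℝ)))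
      (y0 (ξ x)) (Sum.inl 0) ((K : ℤ) : ℝ) i0 j0 with hM
  have hKreal : ((K : ℤ) : ℝ) = (K : ℝ) := by simp
  have hEreal : ((E : ℤ) : ℝ) = (E : ℝ) := by simp
  have key : ∀ x, (∃ v, ReflTransGen (AStep instr) (ξ x) v ∧ gf ⬝ᵥ v = 0) ↔ FPg (M x) := by
    intro x
    obtain ⟨CB, hCB0, hCB⟩ := Bmat_bounded (good x)
    constructor
    · intro hyes
      refine cmb_hold hA (b0 := none) rfl (by rw [hKreal]; exact hK0) hCB
        (reach_large (good x) hyes) (by rw [hKreal]; exact hKc)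
    · intro hfp
      by_contra hno
      refine cmb_fail hA (b0 := none) rfl (by rw [hKreal]; exact hK0) hCB
        (accept_small (good x) hno) ?_ hfp
      rw [hKreal, hEreal]
      exact hEs
  -- the integer family
  set e := Fintype.equivFin (Fin d × Sig (Idx Kk)) with he
  set eG := Fintype.equivFin (Option (ι × Option (Option (Fin q)))) with heG
  set N := Fintype.card (Fin d × Sig (Idx Kk)) with hN
  have hN0 : 0 < N := Fintype.card_pos_iff.2 ⟨(i0, Sum.inl 0)⟩
  set Z : ℕ → Fin (Fintype.card (Option (ι × Option (Option (Fin q))))) →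
      Matrix (Fin N) (Fin N) ℤ := fun x k =>
    (cmbZ A instr gf (ξ x) none (Th : ℤ) (E : ℤ) ((G x : ℕ) : ℤ) (K : ℤ) i0 j0
      (eG.symm k)).submatrix e.symm e.symm with hZ
  have hS : ∀ x, (0:ℝ) < (((Th : ℤ) * (E : ℤ) * ((G x : ℕ) : ℤ) : ℤ) : ℝ) := by
    intro x
    have h1 : (0:ℝ) < (Th : ℝ) := by exact_mod_cast hTh0
    have h2 : (0:ℝ) < (G x : ℝ) := by exact_mod_cast hG0 x
    push_cast
    positivity
  have hred : ∀ x, (∃ v, ReflTransGen (AStep instr) (ξ x) v ∧ gf ⬝ᵥ v = 0) ↔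
      FPg (fun k => (Z x k).map (Int.cast : ℤ → ℝ)) := by
    intro x
    rw [key x]
    have e1 : (fun k => (Z x k).map (Int.cast : ℤ → ℝ)) =
        fun k => (((((Th : ℤ) * (E : ℤ) * ((G x : ℕ) : ℤ) : ℤ) : ℝ)) •
          M x (eG.symm k)).submatrix e.symm e.symm := by
      funext k
      rw [hM]
      simp only
      rw [← cmbZ_cast A instr gf (ξ x) none (by exact_mod_cast hTh0)
        (by exact_mod_cast hEpos) (by exact_mod_cast hG0 x) i0 j0 (eG.symm k)]
      rfl
    rw [e1]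
    have e2 := fpg_comp_iff (M := fun c => (((((Th : ℤ) * (E : ℤ) * ((G x : ℕ) : ℤ) : ℤ) : ℝ)) •
          M x c).submatrix e.symm e.symm) (f := eG.symm) eG.symm.surjective
    rw [e2, fpg_reindex_iff e
      (M := fun c => ((((Th : ℤ) * (E : ℤ) * ((G x : ℕ) : ℤ) : ℤ) : ℝ)) • M x c),
      fpg_smul_iff (hS x)]
  refine ⟨N, _, Z, hN0, Fintype.card_pos, fun k i j => ?_, fun h => hundec ?_⟩
  · refine PZ.primrec ?_
    simp only [hZ, Matrix.submatrix_apply]
    refine pz_cmbZ A instr gf none i0 j0 ?_ ?_ _ _ _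
    · refine PZ.natCast ?_
      have h1 : Primrec fun x : ℕ => 1 + x := Primrec.nat_add.comp (Primrec.const 1) Primrec.id
      refine (Primrec.nat_mul.comp (Primrec.const H) (Primrec.nat_mul.comp h1 h1)).of_eq
        fun x => ?_
      simp only [hG]
      ring
    · intro i
      simp only [hξ, Pi.add_apply, Pi.smul_apply, smul_eq_mul]
      exact (PZ.const _).add ((PZ.natCast Primrec.id).mul (PZ.const _))
  · have h2 : (fun x => ∃ v, ReflTransGen (AStep instr) (ξ x) v ∧ gf ⬝ᵥ v = 0) =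
        fun x => FPg (fun k => (Z x k).map (Int.cast : ℤ → ℝ)) := by
      funext x
      exact propext (hred x)
    rw [← h2] at h
    exact h

/-- There are a size `N` and a number `m` such that the finiteness property is undecidable for
families of `m` integer matrices of size `N`. -/
theorem exists_fixed : ∃ (N m : ℕ) (Z : ℕ → Fin m → Matrix (Fin N) (Fin N) ℤ), 0 < N ∧ 0 < m ∧
    (∀ k i j, Primrec fun x => Z x k i j) ∧
    ¬ ComputablePred fun x => FPg (fun k => (Z x k).map (Int.cast : ℤ → ℝ)) := by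
  obtain ⟨n, L, hn, hL, hfail⟩ : ∃ (n : ℕ) (L : List (List (List ℤ))), 0 < n ∧ L ≠ [] ∧
      ¬ FP (n, L) := by
    have h := NoFP.not_all_FP
    push Not at h
    exact h
  rw [fp_iff_fpe, fpe_iff_fpg hn] at hfail
  have : Nonempty {x // x ∈ L} := by
    obtain ⟨a, ha⟩ := List.exists_mem_of_ne_nil L hL
    exact ⟨⟨a, ha⟩⟩
  obtain ⟨d, A, ρ0, C, c, i0, j0, hA⟩ := exists_core_of_not_fpg _ hfail
  exact reduce_fixed A hA

end Pool.Agent.MP9a50b7
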